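import Pool.Agent.H71.WE.Targets

/-!
# E3A: a small cut `W` with `z ∈ W`
-/

set_option autoImplicit false

open Finset Pool.Agent.H71.WE

namespace Pool.Agent.H62.WE

section

variable {V E : Type} [Fintype V] [DecidableEq V] [DecidableEq E]

lemma ctr_in {S : Finset V} {x : V} (h : x ∈ S) : ctr S x = none := dif_pos h

lemma ctr_out {S : Finset V} {x : V} (h : x ∉ S) : ctr S x = some ⟨x, h⟩ := dif_neg h

lemma ctr_eq_none {S : Finset V} {x : V} : ctr S x = none ↔ x ∈ S := by
  by_cases h : x ∈ S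
  · simp [ctr_in h, h]
  · simp [ctr_out h, h]

lemma ctr_inj {S : Finset V} {x y : V} (hx : x ∉ S) (h : ctr S x = ctr S y) : x = y := by
  by_cases hy : y ∈ S
  · rw [ctr_in hy, ctr_out hx] at h; exact absurd h (by simp)
  · rw [ctr_out hx, ctr_out hy] at h
    simpa using h

lemma mem_pre {W : Type} [DecidableEq W] {f : V → W} {X : Finset W} {v : V} :
    v ∈ pre f X ↔ f v ∈ X := by unfold pre; simp

lemma sep_pre {W : Type} [DecidableEq W] (f : V → W) (a b : V) (Z : Finset W) :
    sep (f a) (f b) Z = sep a b (pre f Z) := by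
  unfold sep; simp only [mem_pre]

end

theorem pf_E3A (h1 : T_CUT) (h2 : T_SEP) (h3 : T_GLU) (h4 : T_CTR) (h5 : T_TRN) : T_E3A := by
  intro V E _ _ _ G A r K v z e W hEH hvW hzW hcW hIE
  obtain ⟨hr, hvK, hzv, heA, hJn, -, hEc, hKc⟩ := hEH
  have hvc : v ∈ Wᶜ := mem_compl.2 hvW
  have hzc : z ∉ Wᶜ := by simpa using hzW
  obtain ⟨c1, -, c3⟩ := h4 V E G
  obtain ⟨d1, -, d3, d4, -⟩ := c3 Wᶜ ⟨v, hvc⟩
  have hcn : ∀ (B : Finset E) (Z : Finset (Option {x : V // x ∉ Wᶜ})),
      cn (mp G (ctr Wᶜ)) B Z = cn G B (pre (ctr Wᶜ) Z) := fun B Z => c1 _ (ctr Wᶜ) B Z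
  have hin : ∀ x, x ∈ Wᶜ → ctr Wᶜ x = none := fun x hx => ctr_in hx
  have hmem : ∀ x, x ∈ K → ctr Wᶜ x ∈ K.image (ctr Wᶜ) := fun x hx => mem_image_of_mem _ hx
  have hnone : (none : Option {x : V // x ∉ Wᶜ}) ∈ K.image (ctr Wᶜ) := by
    have := hmem v hvK
    rwa [hin v hvc] at this
  have hEH1 : EH (mp G (ctr Wᶜ)) A r (K.image (ctr Wᶜ)) none (ctr Wᶜ z) e := by
    refine ⟨hr, hnone, ?_, heA, ?_, ?_, ?_, ?_⟩
    · intro h; exact hzc (ctr_eq_none.1 h)
    · rcases hJn with ⟨ha, hb⟩ | ⟨ha, hb⟩
      · left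
        constructor
        · show ctr Wᶜ (G.s e) = none
          rw [ha, hin v hvc]
        · show ctr Wᶜ (G.t e) = ctr Wᶜ z
          rw [hb]
      · right
        constructor
        · show ctr Wᶜ (G.s e) = ctr Wᶜ z
          rw [ha]
        · show ctr Wᶜ (G.t e) = none
          rw [hb, hin v hvc]
    · rw [hcn]
      have : pre (ctr Wᶜ) {(none : Option {x : V // x ∉ Wᶜ})} = Wᶜ := by
        ext x
        rw [mem_pre, mem_singleton, ctr_eq_none]
      rw [this, cn_compl]
      exact hcW
    · intro X hX1 hX2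
      rw [hcn]
      exact hEc _ ((d3 X).2 hX1) (fun h => hX2 ((d4 X).1 h))
    · intro X hX1 hX2
      rw [hcn]
      apply hKc _ ((d3 X).2 hX1)
      rw [disjoint_left]
      intro x hx hxK
      rw [mem_pre] at hx
      exact (disjoint_left.1 hX2 hx) (hmem x hxK)
  obtain ⟨y1, hy1K, hy1n, D, hDA, hDco, hDK, hres⟩ := hIE _ A _ _ _ e hEH1
  obtain ⟨y, hyK, rfl⟩ := mem_image.1 hy1K
  have hyc : y ∉ Wᶜ := fun h => hy1n (hin y h)
  have hyW : y ∈ W := by simpa using hyc
  have hyv : y ≠ v := by
    rintro rfl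
    exact hvW hyW
  have hDs : ∀ g ∈ D, G.s g ∈ W := by
    intro g hg
    by_contra hc
    have h6 : G.s g ∈ Wᶜ := mem_compl.2 hc
    have h7 : (mp G (ctr Wᶜ)).s g = none := hin _ h6
    have h8 := (hDK g hg).1 (by rw [h7]; exact hnone)
    rw [h7] at h8
    exact hy1n h8.symm
  have hDt : ∀ g ∈ D, G.t g ∈ W := by
    intro g hg
    by_contra hc
    have h6 : G.t g ∈ Wᶜ := mem_compl.2 hc
    have h7 : (mp G (ctr Wᶜ)).t g = none := hin _ h6
    have h8 := (hDK g hg).2 (by rw [h7]; exact hnone)
    rw [h7] at h8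
    exact hy1n h8.symm
  have hsub : insert e D ⊆ A := by
    intro g hg
    rcases mem_insert.1 hg with rfl | hg
    · exact heA
    · exact mem_of_mem_erase (hDA hg)
  refine ⟨y, hyK, hyv, D, hDA, ?_, ?_, ?_⟩
  · have := h5 V E G Wᶜ ∅ D ∅ z y
      (fun g hg _ => ⟨fun h => absurd (hDs g hg) (mem_compl.1 h),
        fun h => absurd (hDt g hg) (mem_compl.1 h)⟩)
      (fun h => absurd h hzc) (fun h => absurd h hyc)
      (fun x hx => absurd hx (notMem_empty x)) hDco
    rwa [union_empty] at this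
  · intro g hg
    constructor
    · intro hk
      have h6 : ctr Wᶜ (G.s g) = ctr Wᶜ y := (hDK g hg).1 (hmem _ hk)
      exact ctr_inj (by simpa using hDs g hg) h6
    · intro hk
      have h6 : ctr Wᶜ (G.t g) = ctr Wᶜ y := (hDK g hg).2 (hmem _ hk)
      exact ctr_inj (by simpa using hDt g hg) h6
  · have hCF : CF (fun X => cn G (A \ insert e D) X + sep v y X) :=
      (h2 V).2 _ _ (h1 V E G _) ((h2 V).1 v y)
    refine h3 V _ hCF r r W hr hr le_rfl ⟨z, hzW⟩ ?_ ?_ ?_ ?_
    · intro h; rw [h] at hvW; exact hvW (mem_univ v)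
    · intro X hX1 hX2 hX3
      obtain ⟨Z, rfl⟩ := d1 X (Or.inr (by
        rw [disjoint_left]
        intro x hx hxX
        exact (mem_compl.1 hx) (hX2 hxX)))
      have hZ1 := (d3 Z).1 hX1
      have hZ2 : Z ≠ univ := by
        intro h
        have h6 := (d4 Z).2 h
        rw [h6] at hX2
        exact hvW (hX2 (mem_univ v))
      have h7 := hres Z hZ1 hZ2
      rw [hcn] at h7
      have h8 : sep none (ctr Wᶜ y) Z = sep v y (pre (ctr Wᶜ) Z) := by
        rw [← hin v hvc, sep_pre]
      rw [h8] at h7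
      exact h7
    · intro X hX1 hX2
      have h6 := cn_sdiff G hsub X
      have h7 := hEc X ⟨z, hX1 hzW⟩ hX2
      have h8 : cn G (insert e D) X ≤ sep v y X := by
        have hzX := hX1 hzW
        have hyX := hX1 hyW
        by_cases hvX : v ∈ X
        · have : cn G (insert e D) X = 0 := by
            unfold cn
            rw [card_eq_zero, filter_eq_empty_iff]
            intro g hg
            rcases mem_insert.1 hg with rfl | hg
            · rw [jn_cr hJn]; tauto
            · have ha := hX1 (hDs g hg)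
              have hb := hX1 (hDt g hg)
              unfold Cr; tauto
          omega
        · have hs : sep v y X = 1 := by
            unfold sep
            rw [if_pos (Or.inr ⟨hvX, hyX⟩)]
          rw [hs]
          unfold cn
          refine (card_le_card (t := {e}) ?_).trans (by simp)
          intro g hg
          rw [mem_filter] at hg
          rcases mem_insert.1 hg.1 with rfl | hgD
          · exact mem_singleton_self _
          · exfalso
            have ha := hX1 (hDs g hgD)
            have hb := hX1 (hDt g hgD)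
            have hc := hg.2
            unfold Cr at hc
            tauto
      show r ≤ cn G (A \ insert e D) X + sep v y X
      omega
    · have h6 := cn_sdiff G hsub W
      have h7 : 1 ≤ cn G (insert e D) W := by
        unfold cn
        rw [Nat.one_le_iff_ne_zero, ← Nat.pos_iff_ne_zero, card_pos]
        refine ⟨e, mem_filter.2 ⟨mem_insert_self _ _, ?_⟩⟩
        rw [jn_cr hJn]
        exact Or.inr ⟨hvW, hzW⟩
      have h8 : sep v y W ≤ 1 := by
        unfold sep; split_ifs <;> simp
      show cn G (A \ insert e D) W + sep v y W ≤ r + 1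
      omega

end Pool.Agent.H62.WE
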